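import Pool.Agent.helper62.VQ.SpecE

/-!
# MP_07c750 (QUE, weight 10), project VN, block 5: negatively curved flows are ergodic, uniformly along unstable curves

This is block 5 of VQ WITHOUT smallness: an abstract hyperbolic flow `X` on `SL(2, ℝ)` (data `Fd`, hypotheses `HF K X`). All constants depend on `K` only (and on what stands before them).
RULES. Row `vne:XXX`: file `Pool/Agent/<seat>/VNE/XXX.lean`, `import Pool.Agent.helper62.VN.SpecE`, `set_option autoImplicit false`, namespace `Pool.Agent.VNE`, `open Pool.Agent.RS Pool.Agent.VQE`, auxiliary lemmas prefixed `XXX_`, theorem `XXX_proof : XXX_stmt`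
(rows listed in `from` may be used as hypotheses `(h : YYY_stmt)`; all rows of VQE are proved: `import Pool.Agent.helper62.VQE.All` gives `VQE.A_NMB`, `A_NUL`, `A_NUI`, `A_NUA`, `FDK_proof`, `RDM_proof`, `A_VNE`, `GLO_proof`, `A_REV`). No `convert`, `congr!`, `native_decide`, no double quotes, no `private`.

NOTATION. Synchronised pairs as in VQE: `D = (f t g)⁻¹ g2(t) = [[a, b], [c, a]]`, `b' = -b - hu`, `c' = c + hv`, speed `sg` of the second orbit. Coordinates `J = -p (b + c)`, `W = (b - c) - m (b + c)`, so `J' = FJ = p² W + O(2)`, `W' = FW = κ J + O(2)` (Jacobi equation).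
`|v| = |J| + |W|`. `Q = J W` satisfies `Q' ≥ (3/(8K²)) |v|²`.
-/

open scoped MatrixGroups ContDiff Topology UpperHalfPlane
open UpperHalfPlane MeasureTheory Filter Set

namespace Pool.Agent.VNE

open Pool.Agent.RS Pool.Agent.VQE

noncomputable section

/-- the data of a flow: speed `p`, `q = -kap/2`, `m = ṗ/p²`, its derivative `m1` along the flow, `κ = -p² Kg`, the flow `f` -/
structure Fd where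
  p : SL(2, ℝ) → ℝ
  q : SL(2, ℝ) → ℝ
  m : SL(2, ℝ) → ℝ
  m1 : SL(2, ℝ) → ℝ
  κ : SL(2, ℝ) → ℝ
  f : ℝ → SL(2, ℝ) → SL(2, ℝ)

/-- the entry `b` of the pair with the coordinates `J`, `W` -/
def bj (X : Fd) (g : SL(2, ℝ)) (J W : ℝ) : ℝ := (W - (1 + X.m g) * J / X.p g) / 2

/-- the entry `c` of the pair with the coordinates `J`, `W` -/
def cj (X : Fd) (g : SL(2, ℝ)) (J W : ℝ) : ℝ := (-W - (1 - X.m g) * J / X.p g) / 2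

/-- the pair with the coordinates `J`, `W` -/
def pj (X : Fd) (g : SL(2, ℝ)) (J W : ℝ) : SL(2, ℝ) := dg (bj X g J W) (cj X g J W)

/-- the speed of the second orbit -/
def sj (X : Fd) (g : SL(2, ℝ)) (J W : ℝ) : ℝ := sg X.p X.q g (bj X g J W) (cj X g J W)

/-- the functions `hu`, `hv` -/
def uj (X : Fd) (g : SL(2, ℝ)) (J W : ℝ) : ℝ := hu X.p X.q g (bj X g J W) (cj X g J W)

def vj (X : Fd) (g : SL(2, ℝ)) (J W : ℝ) : ℝ := hv X.p X.q g (bj X g J W) (cj X g J W)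

/-- the field `J' = FJ` -/
def FJ (X : Fd) (g : SL(2, ℝ)) (J W : ℝ) : ℝ := -(X.p g ^ 2 * X.m g * (bj X g J W + cj X g J W)) -
  X.p g * ((cj X g J W - bj X g J W) + (vj X g J W - uj X g J W))

/-- the field `W' = FW` -/
def FW (X : Fd) (g : SL(2, ℝ)) (J W : ℝ) : ℝ := (-(bj X g J W + cj X g J W) - (uj X g J W + vj X g J W)) -
  X.m1 g * (bj X g J W + cj X g J W) - X.m g * ((cj X g J W - bj X g J W) + (vj X g J W - uj X g J W))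

/-- hyperbolic flows -/
structure HF (K : ℝ) (X : Fd) : Prop where
  flw : Flw X.p X.q X.f
  pb : ∀ g, 1 / K ≤ X.p g ∧ X.p g ≤ K
  qb : ∀ g, |X.q g| ≤ K ∧ |X.m g| ≤ K ∧ |X.m1 g| ≤ K
  kb : ∀ g, 1 / K ≤ X.κ g ∧ X.κ g ≤ K
  lip : ∀ g D, |X.p (g * D) - X.p g| ≤ K * nm D ∧ |X.q (g * D) - X.q g| ≤ K * nm D ∧ |X.m (g * D) - X.m g| ≤ K * nm D ∧ |X.κ (g * D) - X.κ g| ≤ K * nm D
  dp : ∀ (t : ℝ) (g : SL(2, ℝ)), HasDerivAt (fun s => X.p (X.f s g)) (X.p (X.f t g) ^ 2 * X.m (X.f t g)) t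
  dm : ∀ (t : ℝ) (g : SL(2, ℝ)), HasDerivAt (fun s => X.m (X.f s g)) (X.m1 (X.f t g)) t
  f1 : ∀ (g : SL(2, ℝ)) (J W J' W' : ℝ), |J| + |W| ≤ 1 / K → |J'| + |W'| ≤ 1 / K →
    |FJ X g J W - FJ X g J' W' - X.p g ^ 2 * (W - W')| ≤ K * (|J| + |W| + |J'| + |W'|) * (|J - J'| + |W - W'|) ∧
    |FW X g J W - FW X g J' W' - X.κ g * (J - J')| ≤ K * (|J| + |W| + |J'| + |W'|) * (|J - J'| + |W - W'|)
  f2 : ∀ (g E : SL(2, ℝ)) (J W : ℝ), |J| + |W| ≤ 1 / K →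
    |FJ X (g * E) J W - FJ X g J W| ≤ K * nm E * (|J| + |W|) ∧ |FW X (g * E) J W - FW X g J W| ≤ K * nm E * (|J| + |W|)

/-- a synchronised pair on `[0, T]` of size at most `ε` -/
structure PR (ε : ℝ) (X : Fd) (g : SL(2, ℝ)) (T : ℝ) (J W : ℝ → ℝ) : Prop where
  dJ : ∀ t ∈ Icc (0 : ℝ) T, HasDerivAt J (FJ X (X.f t g) (J t) (W t)) t
  dW : ∀ t ∈ Icc (0 : ℝ) T, HasDerivAt W (FW X (X.f t g) (J t) (W t)) t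
  bd : ∀ t ∈ Icc (0 : ℝ) T, |J t| + |W t| ≤ ε

/-- stable pairs -/
structure SMN (ε : ℝ) (X : Fd) (g : SL(2, ℝ)) (J W : ℝ → ℝ) : Prop where
  pr : ∀ T : ℝ, PR ε X g T J W
  neg : ∀ t : ℝ, 0 ≤ t → J t * W t ≤ 0

/-- the stable leaf of `g` is `g * pj X g j (stn ε X g j)` -/
def stn (ε : ℝ) (X : Fd) (g : SL(2, ℝ)) (j : ℝ) : ℝ :=
  Classical.epsilon (fun w : ℝ => ∃ J W : ℝ → ℝ, SMN ε X g J W ∧ J 0 = j ∧ W 0 = w)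

/-- the stable holonomy -/
def SbN (ε : ℝ) (X : Fd) (j : ℝ) (g : SL(2, ℝ)) : SL(2, ℝ) := g * pj X g j (stn ε X g j)

/-- the reversed data -/
def rX (X : Fd) : Fd := ⟨rp X.p, rq X.q, fun g => -X.m (g * kJ⁻¹), fun g => X.m1 (g * kJ⁻¹), fun g => X.κ (g * kJ⁻¹), rf X.f⟩

/-- the unstable leaf of `g` is `g * pj X g y (unn ε X g y)` -/
def unn (ε : ℝ) (X : Fd) (g : SL(2, ℝ)) (y : ℝ) : ℝ := stn ε (rX X) (g * kJ) (-y)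

/-- the unstable holonomy -/
def UbN (ε : ℝ) (X : Fd) (y : ℝ) (g : SL(2, ℝ)) : SL(2, ℝ) := g * pj X g y (unn ε X g y)

/-- the local coordinates -/
def psN (ε : ℝ) (X : Fd) (g : SL(2, ℝ)) (z : Fin 3 → ℝ) : SL(2, ℝ) := SbN ε X (z 2) (UbN ε X (z 1) (X.f (z 0) g))

/-- the cube -/
def cu (r : ℝ) : Set (Fin 3 → ℝ) := Icc (fun _ => -r) (fun _ => r)

/-- approximate solutions of `β' = P χ`, `χ' = k β` on `[a, b]`, relative error `η` -/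
structure LSy (K : ℝ) (η P k β χ : ℝ → ℝ) (a b : ℝ) : Prop where
  bd : ∀ t ∈ Icc a b, 1 / K ≤ P t ∧ P t ≤ K ∧ 1 / K ≤ k t ∧ k t ≤ K ∧ 0 ≤ η t ∧ η t ≤ 1 / (8 * K)
  d : ∀ t ∈ Icc a b, ∃ β' χ' : ℝ, HasDerivAt β β' t ∧ HasDerivAt χ χ' t ∧ |β' - P t * χ t| ≤ η t * (|β t| + |χ t|) ∧ |χ' - k t * β t| ≤ η t * (|β t| + |χ t|)

/-- linear coordinates of a matrix near `1` at `g`: `J`, `W` -/
def Jd (X : Fd) (g y : SL(2, ℝ)) : ℝ := -(X.p g * (y.1 0 1 + y.1 1 0))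

def Wd (X : Fd) (g y : SL(2, ℝ)) : ℝ := (y.1 0 1 - y.1 1 0) - X.m g * (y.1 0 1 + y.1 1 0) + 2 * X.q g * (y.1 0 0 - y.1 1 1) / X.p g

/-- curves in the unstable cone -/
structure UCX (C1 : ℝ) (X : Fd) (γ : ℝ → SL(2, ℝ)) : Prop where
  cont : ContinuousOn γ (Icc 0 1)
  cone : ∀ v v' : ℝ, 0 ≤ v → v < v' → v' ≤ 1 → ∀ y : SL(2, ℝ), y = (γ v)⁻¹ * γ v' → (v' - v) / C1 ≤ Jd X (γ v) y ∧ Jd X (γ v) y ≤ C1 * (v' - v) ∧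
    Jd X (γ v) y ≤ C1 * Wd X (γ v) y ∧ Wd X (γ v) y ≤ C1 * Jd X (γ v) y ∧ |y.1 0 0 - y.1 1 1| ≤ C1 * Jd X (γ v) y

/-! ## A. Algebra, short times, growth -/

/-- **Row NCH** (the chart; medium, algebra; from VQE.NMB). First line: `2 × 2` system with the determinant `2p`. `a = √(1 + bc)`; `bj`, `cj` at `g E` and `g` differ by `C nm E |J|` (`p`, `m` Lipschitz, `p ≥ 1/K`); the diagonal entries are `√(1+bc)`, `|bc - b'c'| ≤ (|b|+|c'|)(|b-b'|+|c-c'|)`. `|J| + |W| ≤ C (|b| + |c|)`.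
`sg - 1 = -(a(p2 - p1) + (b+c)(q1 + q2))/(a p2 + (b+c) q2)`, denominator `≥ 1/(2K)` for small `b, c`. Continuity: `p`, `q`, `m` are continuous by `lip` (`g' = g (g⁻¹ g')`, `nm (g⁻¹ g') → 0`), `FJ`, `FW` by `f2`, and `dg` is continuous (`Flw.cont` for `t ↦ f t g`). `hu p q g 0 0 = 0`, as `sg p q g 0 0 = 1`. -/
def NCH_stmt : Prop := ∀ K : ℝ, 1 ≤ K → ∃ C : ℝ, 1 ≤ C ∧ ∀ X : Fd, HF K X →
  (∀ (g : SL(2, ℝ)) (J W : ℝ), -(X.p g * (bj X g J W + cj X g J W)) = J ∧ (bj X g J W - cj X g J W) - X.m g * (bj X g J W + cj X g J W) = W ∧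
    |bj X g J W| ≤ C * (|J| + |W|) ∧ |cj X g J W| ≤ C * (|J| + |W|)) ∧
  (∀ (g : SL(2, ℝ)) (b c : ℝ), bj X g (-(X.p g * (b + c))) ((b - c) - X.m g * (b + c)) = b ∧ cj X g (-(X.p g * (b + c))) ((b - c) - X.m g * (b + c)) = c ∧
    |-(X.p g * (b + c))| + |(b - c) - X.m g * (b + c)| ≤ C * (|b| + |c|)) ∧
  (∀ g : SL(2, ℝ), FJ X g 0 0 = 0 ∧ FW X g 0 0 = 0) ∧
  (∀ (g : SL(2, ℝ)) (J W : ℝ), |J| + |W| ≤ 1 / C → nm (pj X g J W) ≤ C * (|J| + |W|) ∧ |J| + |W| ≤ C * nm (pj X g J W) ∧ |sj X g J W - 1| ≤ C * (|J| + |W|) ∧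
    |(pj X g J W).1 0 0 - 1| ≤ C * (|J| + |W|) ^ 2 ∧ (pj X g J W).1 0 0 = (pj X g J W).1 1 1) ∧
  (∀ (g E : SL(2, ℝ)) (J W J' W' : ℝ), |J| + |W| ≤ 1 / C → |J'| + |W'| ≤ 1 / C →
    (∀ i j, |(pj X (g * E) J' W').1 i j - (pj X g J W).1 i j| ≤ C * (|J - J'| + |W - W'| + nm E * (|J| + |W|))) ∧
    (∀ i, |(pj X (g * E) J' W').1 i i - (pj X g J W).1 i i| ≤ C * (|J| + |W| + |J'| + |W'|) * (|J - J'| + |W - W'| + nm E * (|J| + |W|))) ∧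
    nm ((pj X g J W)⁻¹ * pj X (g * E) J' W') ≤ C * (|J - J'| + |W - W'| + nm E * (|J| + |W|))) ∧
  Continuous X.p ∧ Continuous X.q ∧ Continuous X.m ∧ Continuous X.κ ∧
  ∀ (T : ℝ) (g : SL(2, ℝ)) (J W : ℝ → ℝ), ContinuousOn J (Icc 0 T) → ContinuousOn W (Icc 0 T) → (∀ t ∈ Icc (0 : ℝ) T, |J t| + |W t| ≤ 1 / C) →
    ContinuousOn (fun t => sj X (X.f t g) (J t) (W t)) (Icc 0 T) ∧ ContinuousOn (fun t => FJ X (X.f t g) (J t) (W t)) (Icc 0 T) ∧ ContinuousOn (fun t => FW X (X.f t g) (J t) (W t)) (Icc 0 T)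

/-- **Row NGR** (growth; medium; = VQE row GRO with constants: copy helper26/VQE/GRO.lean; from VQE.NMB). `E(t) = (f t g)⁻¹ f t (gE)`, `N = (a-1)² + b² + c² + (d-1)²`, `|N'| ≤ 2C N` as long as `N ≤ 1` (`|p(gE) - p(g)|, |q(gE) - q(g)| ≤ K nm E`). -/
def NGR_stmt : Prop := ∀ K : ℝ, 1 ≤ K → ∃ C : ℝ, 1 ≤ C ∧ ∀ X : Fd, HF K X → ∀ (g E : SL(2, ℝ)) (t : ℝ),
  min 1 (nm ((X.f t g)⁻¹ * X.f t (g * E))) ≤ C * nm E * Real.exp (C * |t|)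

/-- the matrix of the flow direction -/
def Xm (X : Fd) (g : SL(2, ℝ)) : Matrix (Fin 2) (Fin 2) ℝ := !![X.p g / 2, -X.q g; X.q g, -(X.p g / 2)]

/-- **Row NSM** (short times; medium; = VQE row SML: copy helper43/VQE/SML.lean; from VQE.NMB). `M(t) = g⁻¹ f t g`, `M' = M X(f t g)`, `|X(f t g) - X(g)| ≤ K nm M(t) ≤ C |t|`. -/
def NSM_stmt : Prop := ∀ K : ℝ, 1 ≤ K → ∃ C : ℝ, 1 ≤ C ∧ ∀ X : Fd, HF K X → ∀ (g : SL(2, ℝ)) (r t t' : ℝ), r ≤ 1 / C → |t| ≤ r → |t'| ≤ r →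
  nm (g⁻¹ * X.f t g) ≤ C * |t| ∧ ∀ i j, |(g⁻¹ * X.f t g).1 i j - (g⁻¹ * X.f t' g).1 i j - (t - t') * Xm X g i j| ≤ C * r * |t - t'|

/-- **Row NSD** (short times, differences; short-medium; = VQE row SME: copy helper27/VQE/SME.lean; from VQE.NMB, NGR). -/
def NSD_stmt : Prop := ∀ K : ℝ, 1 ≤ K → ∃ C : ℝ, 1 ≤ C ∧ ∀ X : Fd, HF K X → ∀ (g E : SL(2, ℝ)) (t : ℝ), |t| ≤ 1 / C → nm E ≤ 1 / C →
  ∀ i j, |((X.f t g)⁻¹ * X.f t (g * E)).1 i j - E.1 i j| ≤ C * |t| * nm E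

/-! ## B. The quadratic form and the Wronskian (PURE) -/

/-- **Row NDC** (PURE, calculus; medium). `N = β² + χ²`, `|v| = |β| + |χ|`, `N ≤ |v|² ≤ 2N`. `Q = βχ`: `Q' = β'χ + βχ' ≥ Pχ² + kβ² - η|v|² ≥ (1/K)N - (1/(4K))N = (3/(4K))N`, `|N'| ≤ 4K|βχ| + 2η|v|² ≤ 3KN`: `N(t) ≤ e^{3K|t-s|}N(s)`. (1): `Q(t) - Q(s) ≥ (3/(4K)) ∫_s^t N`, and on the first and last part of length `min 1 (t-s)`
`N ≥ e^{-3K}N(s)`, `N ≥ e^{-3K}N(t)`. (3): `Q ≤ 0` on `[a,b]`, `|Q| ≤ N/2`, so `(-Q)' ≤ -(3/(4K))N ≤ -(3/(2K))(-Q)`, `-Q(t) ≤ e^{-(3/(2K))(t-a)} N(a)/2`; for `t ≥ a+1` by (1) `N(t)/C ≤ Q(t) - Q(t-1) ≤ -Q(t-1)`; for `t ≤ a+1` (2). (4): (3) for `-β(a+b-t)`, `χ(a+b-t)`. -/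
def NDC_stmt : Prop := ∀ K : ℝ, 1 ≤ K → ∃ C μ : ℝ, 1 ≤ C ∧ 0 < μ ∧ ∀ (η P k β χ : ℝ → ℝ) (a b : ℝ), a ≤ b → LSy K η P k β χ a b →
  (∀ s ∈ Icc a b, ∀ t ∈ Icc a b, s ≤ t → min 1 (t - s) * ((|β s| + |χ s|) ^ 2 + (|β t| + |χ t|) ^ 2) / C ≤ β t * χ t - β s * χ s) ∧
  (∀ s ∈ Icc a b, ∀ t ∈ Icc a b, |β t| + |χ t| ≤ C * Real.exp (C * |t - s|) * (|β s| + |χ s|)) ∧
  (β b * χ b ≤ 0 → ∀ t ∈ Icc a b, |β t| + |χ t| ≤ C * Real.exp (-(μ * (t - a))) * (|β a| + |χ a|)) ∧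
  (0 ≤ β a * χ a → ∀ t ∈ Icc a b, |β t| + |χ t| ≤ C * Real.exp (-(μ * (b - t))) * (|β b| + |χ b|))

/-- **Row NWR** (PURE, Wronskian; medium; from NDC). `v = (β,χ)`, `u = (β2,χ2)`, `η = K'(|v| + |u|)`. `t` fixed. By NDC (3) on `[0,t]` `|v(t)| ≤ C e^{-μt}|v(0)|` (`βχ ≤ 0`). If `β2χ2(t) ≤ 0`: `|u(t)| ≤ C|u(0)|`. Otherwise let `s = 0` if `β2χ2(0) ≥ 0`, or `s ∈ [0,t]` with `β2χ2(s) = 0` (intermediate values): `|u(s)| ≤ C|u(0)|` (NDC (3) on `[0,s]`) and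
`β2χ2 ≥ 0` on `[s,t]`. `w = βχ2 - χβ2`: as `-βχ ≥ c|v|²` and `β2χ2 ≥ 0` the two terms `βχ2`, `-χβ2` have the same sign, `|β|,|χ| ≥ c|v|`, so `|w| ≥ c|v||u|`. `|w'| ≤ 2η|v||u| ≤ (2/c)η|w|`, `∫_s^t η ≤ K'∫_0^t |v| + K'∫_s^t|u| ≤ C` (NDC (3), (4); `|v|, |u| ≤ 1/(8KK')`). So `|v(t)||u(t)| ≤ |w(t)|/c ≤ C|w(s)| ≤ C|v(s)||u(s)| ≤ C|v(0)||u(0)|`. -/
def NWR_stmt : Prop := ∀ K K' c : ℝ, 1 ≤ K → 1 ≤ K' → 0 < c → ∃ C : ℝ, 1 ≤ C ∧ ∀ (P k β χ β2 χ2 : ℝ → ℝ) (T : ℝ), 0 ≤ T →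
  LSy K (fun t => K' * (|β t| + |χ t| + (|β2 t| + |χ2 t|))) P k β χ 0 T → LSy K (fun t => K' * (|β t| + |χ t| + (|β2 t| + |χ2 t|))) P k β2 χ2 0 T →
  (∀ t ∈ Icc (0 : ℝ) T, c * (|β t| + |χ t|) ^ 2 ≤ -(β t * χ t)) → ∀ t ∈ Icc (0 : ℝ) T, (|β t| + |χ t|) * (|β2 t| + |χ2 t|) ≤ C * ((|β 0| + |χ 0|) * (|β2 0| + |χ2 0|))

/-- **Row NWZ** (PURE, two decaying solutions are nearly parallel; short-medium; from NDC). By NDC (3) on `[0,T]` both decay like `C e^{-μ't}`. `w = βχ2 - χβ2`, `|w'| ≤ 2A e^{-μt}|v||u| ≤ C A e^{-μt}|v(0)||u(0)|`, `w(T) → 0`. -/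
def NWZ_stmt : Prop := ∀ K μ : ℝ, 1 ≤ K → 0 < μ → ∃ C : ℝ, 1 ≤ C ∧ ∀ (A : ℝ) (P k β χ β2 χ2 : ℝ → ℝ), 0 ≤ A →
  (∀ T : ℝ, LSy K (fun t => A * Real.exp (-(μ * t))) P k β χ 0 T ∧ LSy K (fun t => A * Real.exp (-(μ * t))) P k β2 χ2 0 T) →
  (∀ t : ℝ, 0 ≤ t → β t * χ t ≤ 0 ∧ β2 t * χ2 t ≤ 0) → |β 0 * χ2 0 - χ 0 * β2 0| ≤ C * A * ((|β 0| + |χ 0|) * (|β2 0| + |χ2 0|))

/-! ## C. Stable pairs -/

/-- **Row NPL** (pairs and their differences are `LSy`; short; from NCH). `f1` (with `J' = W' = 0`, `FJ X g 0 0 = 0`), `P = p(f t g)²`, `k = κ(f t g)`, constant `K²`. -/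
def NPL_stmt : Prop := ∀ K : ℝ, 1 ≤ K → ∃ C ε0 : ℝ, 1 ≤ C ∧ 0 < ε0 ∧ ∀ (ε T : ℝ) (X : Fd) (g : SL(2, ℝ)) (J1 W1 J2 W2 : ℝ → ℝ), ε ≤ ε0 → HF K X → PR ε X g T J1 W1 → PR ε X g T J2 W2 →
  LSy (K ^ 2) (fun t => C * (|J1 t| + |W1 t|)) (fun t => X.p (X.f t g) ^ 2) (fun t => X.κ (X.f t g)) J1 W1 0 T ∧
  LSy (K ^ 2) (fun t => C * (|J1 t| + |W1 t| + (|J2 t| + |W2 t|))) (fun t => X.p (X.f t g) ^ 2) (fun t => X.κ (X.f t g)) (fun t => J1 t - J2 t) (fun t => W1 t - W2 t) 0 T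

/-- **Row NGC** (clamped global solutions; medium; from NCH, VQE.GLO). `cl x` = projection to `[-ε/2, ε/2]`, field `(p(f t g)² W + (FJ(f t g, cl J, cl W) - p² cl W), κ J + (FW(f t g, cl J, cl W) - κ cl J))`: Lipschitz (`f1`), continuous in `t` (NCH), remainder at most `K (2ε) (|J| + |W|)`. While `|J|, |W| ≤ ε/2` it is the field of a pair. -/
def NGC_stmt : Prop := ∀ K : ℝ, 1 ≤ K → ∃ ε0 : ℝ, 0 < ε0 ∧ ∀ (ε : ℝ) (X : Fd) (g : SL(2, ℝ)), 0 < ε → ε ≤ ε0 → HF K X → ∃ Φ : ℝ → ℝ × ℝ → ℝ × ℝ, (∀ x, Φ 0 x = x) ∧ (∀ t, Continuous (Φ t)) ∧ (∀ x, Continuous fun t => Φ t x) ∧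
  (∀ (x : ℝ × ℝ) (T : ℝ), LSy (K ^ 2) (fun _ => 1 / (100 * K ^ 4)) (fun t => X.p (X.f t g) ^ 2) (fun t => X.κ (X.f t g)) (fun t => (Φ t x).1) (fun t => (Φ t x).2) 0 T) ∧
  ∀ (x : ℝ × ℝ) (t : ℝ), |(Φ t x).1| ≤ ε / 2 → |(Φ t x).2| ≤ ε / 2 → HasDerivAt (fun s => (Φ s x).1) (FJ X (X.f t g) (Φ t x).1 (Φ t x).2) t ∧ HasDerivAt (fun s => (Φ s x).2) (FW X (X.f t g) (Φ t x).1 (Φ t x).2) t

/-- **Row NES** (existence of stable pairs; medium; from NGC, NDC; compare VQE.SHO). `j > 0` (`j < 0` is symmetric, `j = 0` trivial), `K1 = K²`, `Λ = 128 K1²`, solutions `Φ` of NGC from `(j, w)`, `w ∈ [-Λj, 0]`, `Q = JW` is monotone, strictly unless `v = 0` (NDC (1)), `v ≠ 0` (NDC (2)). `w = 0`: `Q(0) = 0`, so `Q > 0` for `t > 0` and `J(n) > 0`. `w = -Λj`: up to `t0 = 1/(16K1)` (or `1/(100 K1²)`, as needed) `|v|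 ≤ 2|v(0)| ≤ 4Λj`,
`W ≤ -Λj/2`, `J' ≤ W/K1 + η|v| ≤ -Λj/(4K1)`, so `J(t0) < 0`, `W(t0) < 0` (enlarge `Λ` if necessary), `Q > 0` after `t0`, so `J(n) < 0` for `n ≥ 1`. Intermediate values: `J(n) = 0` for some `w`; `C_n = {w : Q(n) ≤ 0}` is compact, nonempty, decreasing; a point of the intersection has `Q ≤ 0` for all `t`, NDC (3): `|v(t)| ≤ C|v(0)| ≤ C(1+Λ)j ≤ ε/2`. -/
def NES_stmt : Prop := ∀ K : ℝ, 1 ≤ K → ∃ C ε0 : ℝ, 1 ≤ C ∧ 0 < ε0 ∧ ∀ (ε : ℝ) (X : Fd) (g : SL(2, ℝ)) (j : ℝ), 0 < ε → ε ≤ ε0 → HF K X → |j| ≤ ε / C → ∃ J W : ℝ → ℝ, SMN ε X g J W ∧ J 0 = j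

/-- **Row NST** (properties of stable pairs; medium; from NPL, NDC, NWZ). Decay: NDC (3). Cone: NDC (1) on `[t, t+1]`: `-Q(t) ≥ Q(t+1) - Q(t) ≥ |v(t)|²/C`, so `|J||W| ≥ |v|²/C`. Differences `Δ = v - v'` (NPL): `Q_Δ` is monotone and tends to `0` (decay), so `Q_Δ ≤ 0`, and `-Q_Δ(0) ≥ |Δ(0)|²/C`. Four pairs: `η ≤ C r e^{-μt}` (decay, `|v_i(0)| ≤ C r`), NWZ for the differences. -/
def NST_stmt : Prop := ∀ K : ℝ, 1 ≤ K → ∃ C μ ε0 : ℝ, 1 ≤ C ∧ 0 < μ ∧ 0 < ε0 ∧ ∀ (ε : ℝ) (X : Fd) (g : SL(2, ℝ)) (J W : ℝ → ℝ), 0 < ε → ε ≤ ε0 → HF K X → SMN ε X g J W →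
  (∀ t : ℝ, 0 ≤ t → |J t| + |W t| ≤ C * Real.exp (-(μ * t)) * (|J 0| + |W 0|) ∧ |W t| ≤ C * |J t| ∧ |J t| ≤ C * |W t| ∧ (|J t| + |W t|) ^ 2 ≤ -(C * (J t * W t))) ∧
  ∀ J' W' : ℝ → ℝ, SMN ε X g J' W' → |W 0 - W' 0| ≤ C * |J 0 - J' 0| ∧
    ∀ (r : ℝ) (J3 W3 J4 W4 : ℝ → ℝ), SMN ε X g J3 W3 → SMN ε X g J4 W4 → |J 0| ≤ r → |J' 0| ≤ r → |J3 0| ≤ r → |J4 0| ≤ r →
      |(W 0 - W' 0) * (J3 0 - J4 0) - (W3 0 - W4 0) * (J 0 - J' 0)| ≤ C * r * (|J 0 - J' 0| * |J3 0 - J4 0|)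

/-- **Row NSY** (pairs are orbits; medium; = VQE row SYN: copy helper57/VQE/SYN.lean; from VQE.NMB, NCH). `τ(t) = ∫_0^t sj`. With `x = bj`, `y = cj` at `f t g`: `J = -p(x+y)`, `W = (x-y) - m(x+y)`; as `J' = FJ`, `W' = FW` and `(p ∘ f)' = p² m`, `(m ∘ f)' = m1`, the `2 × 2` linear system for `x'`, `y'` gives `x' = -x - hu`, `y' = y + hv` (`x = (W - (1+m)J/p)/2` is differentiable).
Then as in SYN: `G2(t) = f t g * dg (x t) (y t)` satisfies `G2' = G2 X(G2) σ`, and so does `f (τ t) (G2 0)`; Gronwall with the Lipschitz constant `K`. (At the end points: replace `sj` by its value at the projection to `[0,T]`: then `τ` is differentiable on `ℝ`, and unchanged on `[0,T]`.) -/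
def NSY_stmt : Prop := ∀ K : ℝ, 1 ≤ K → ∃ ε0 : ℝ, 0 < ε0 ∧ ∀ (X : Fd) (g : SL(2, ℝ)) (T : ℝ) (J W : ℝ → ℝ), HF K X → PR ε0 X g T J W →
  ∀ t ∈ Icc (0 : ℝ) T, X.f (∫ s in (0 : ℝ)..t, sj X (X.f s g) (J s) (W s)) (g * pj X g (J 0) (W 0)) = X.f t g * pj X (X.f t g) (J t) (W t)

/-- **Row NLA** (Lipschitz, main estimate; medium-long; from NCH, NPL, NDC, NWR, NST, NSY). `h = |Jh 0| + |Wh 0|`, `j = J1 0`. `v2~(t) = v2(τ(t))`, `τ` of NSY for the pair `vh` (`1/2 ≤ sj ≤ 2`), `f(τ(t)) g' = f t g * pj(f t g)(vh(t))`: `v2~' = sj · F(f t g * pj.., v2~)`, so by `f1`, `f2`, NCH `|v2~' - A v2~| ≤ C(|v2~| + |vh|)|v2~|`, `A = (P, κ)` at `f t g`, and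
`Δ = v1 - v2~` satisfies `|Δ' - AΔ| ≤ C(|v1| + |v2~|)|Δ| + C|vh||v2~|`. NWR for `(v1, vh)` and for `(v2~, vh)` (cone: NST): `|v1||vh| ≤ C|j|h`, `|v2~||vh| ≤ C|j|h`. `V = Δ_J Δ_W`, `V(0) = 0`, `V' ≥ (1/(4K²))|Δ|² - C(jh)²`; with a small `μ`: `(e^{-μt}V)' ≥ e^{-μt}(c|Δ|² - C(jh)²)`, integrate over `[0,T]`: `c∫_0^1|Δ|² ≤ e^{-μT}|Δ(T)|² + C(jh)²`,
and on `[0,1]` `|Δ(0)| ≤ C|Δ(t)| + C|j|h` (Gronwall). `|Δ(T)| ≤ C|j|` and `|Δ(T)||vh(T)| ≤ C|j|h`.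
(`τ` is made differentiable on `ℝ` as in NSY; `v2` is differentiable at `0`.) -/
def NLA_stmt : Prop := ∀ K : ℝ, 1 ≤ K → ∃ C μ ε0 : ℝ, 1 ≤ C ∧ 0 < μ ∧ 0 < ε0 ∧ ∀ (X : Fd) (g : SL(2, ℝ)) (T : ℝ) (Jh Wh J1 W1 J2 W2 : ℝ → ℝ), HF K X → 1 ≤ T → PR ε0 X g T Jh Wh → SMN ε0 X g J1 W1 →
  SMN ε0 X (g * pj X g (Jh 0) (Wh 0)) J2 W2 → J1 0 = J2 0 →
  |W1 0 - W2 0| ≤ C * |J1 0| * (|Jh 0| + |Wh 0| + Real.exp (-(μ * T))) ∧ |W1 0 - W2 0| * (|Jh T| + |Wh T|) ≤ C * |J1 0| * (|Jh 0| + |Wh 0|)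

/-- **Row NLT** (Lipschitz in the transverse direction; short-medium; from NLA, NGC, NDC, NST). `Φ` of NGC with `ε0` from `(J0, W0)`. If `|v| < ε0/2` for all `t ≥ 0`: NLA with `T → ∞`. Otherwise let `T` be the first time with `|v(T)| = ε0/2` (`T ≥ 1` by NDC (2), as `|v(0)| ≤ 1/C`): NLA, second part. -/
def NLT_stmt : Prop := ∀ K : ℝ, 1 ≤ K → ∃ C ε0 : ℝ, 1 ≤ C ∧ 0 < ε0 ∧ ∀ (X : Fd) (g : SL(2, ℝ)) (J0 W0 : ℝ) (J1 W1 J2 W2 : ℝ → ℝ), HF K X → |J0| + |W0| ≤ 1 / C → SMN ε0 X g J1 W1 →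
  SMN ε0 X (g * pj X g J0 W0) J2 W2 → J1 0 = J2 0 → |W1 0 - W2 0| ≤ C * |J1 0| * (|J0| + |W0|)

/-- **Row NDM** (decomposition; short-medium; from VQE.NMB, NCH, NSM, NSD). `φ(s) = D00 - D11`, `D = g⁻¹ f(-s)(gE)`; `D = (g⁻¹ f(-s) g)((f(-s)g)⁻¹ f(-s)(gE))`, `|φ(s) - (E00 - E11) + s p(g)| ≤ C(|s| + nm E)²` by NSM, NSD: `φ` changes the sign on `|s| ≤ C nm E`, so `φ(s) = 0` for some `s`; `D = dg b c` (`D00 = D11 > 0`, determinant), coordinates NCH; `f s (g D) = gE`. -/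
def NDM_stmt : Prop := ∀ K : ℝ, 1 ≤ K → ∃ C : ℝ, 1 ≤ C ∧ ∀ (X : Fd) (g E : SL(2, ℝ)), HF K X → nm E ≤ 1 / C → ∃ s J W : ℝ, |s| ≤ C * nm E ∧ |J| + |W| ≤ C * nm E ∧ g * E = X.f s (g * pj X g J W)

/-- **Row NTP** (the function `stn`; medium; from NCH, NES, NST, NLT, NDM, NPL, NDC). `Classical.epsilon_spec`, NES, NST (uniqueness: `C|j - j'|` with `j = j'`). `SMN` is monotone in `ε`. Third part: `nm E` not small: `|stn| ≤ C|j|` twice. `nm E` small: `gE = f s g'`, `g' = g * pj X g J0 W0` (NDM), `|stn g' j - stn g j| ≤ C|j|nm E` (NLT); `s ≥ 0`: the stable pair `(J, W)` over `g'` with `J 0 = j`, shifted by `s`, is a stable pair over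
`f s g'`, `|J s - j|, |W s - W 0| ≤ C s|j|` (NPL, NDC (2)), `|stn (f s g') j - W s| ≤ C|j - J s|` (NST); `s < 0`: the same with the base points `f s g'` and `g' = f(-s)(f s g')`. Continuity of `(g, j) ↦ SbN` on `|j| ≤ ε/C` follows (NCH). -/
def NTP_stmt : Prop := ∀ K : ℝ, 1 ≤ K → ∃ C ε0 : ℝ, 1 ≤ C ∧ 0 < ε0 ∧ ∀ (ε : ℝ) (X : Fd), 0 < ε → ε ≤ ε0 → HF K X →
  (∀ (g : SL(2, ℝ)) (j : ℝ), |j| ≤ ε / C → (∃ J W : ℝ → ℝ, SMN ε X g J W ∧ J 0 = j ∧ W 0 = stn ε X g j) ∧ |stn ε X g j| ≤ C * |j| ∧ |j| ≤ C * |stn ε X g j| ∧ j * stn ε X g j ≤ 0) ∧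
  (∀ (g : SL(2, ℝ)) (j j' : ℝ), |j| ≤ ε / C → |j'| ≤ ε / C → |stn ε X g j - stn ε X g j'| ≤ C * |j - j'|) ∧
  (∀ (g E : SL(2, ℝ)) (j : ℝ), |j| ≤ ε / C → |stn ε X (g * E) j - stn ε X g j| ≤ C * |j| * nm E) ∧
  (∀ (g : SL(2, ℝ)) (r j1 j2 j3 j4 : ℝ), r ≤ ε / C → |j1| ≤ r → |j2| ≤ r → |j3| ≤ r → |j4| ≤ r →
    |(stn ε X g j1 - stn ε X g j2) * (j3 - j4) - (stn ε X g j3 - stn ε X g j4) * (j1 - j2)| ≤ C * r * (|j1 - j2| * |j3 - j4|)) ∧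
  ContinuousOn (fun x : SL(2, ℝ) × ℝ => SbN ε X x.2 x.1) (univ ×ˢ Icc (-(ε / C)) (ε / C))

/-- **Row NAV** (averages; short-medium; = VQE row AVE: copy helper9/VQE/AVE.lean; from VQE.NMB, NCH, NST, NSY). `|sj - 1| ≤ C|v t|`, `nm (pj ..) ≤ C|v t|`, `∫_0^∞ |v t| dt ≤ C`. -/
def NAV_stmt : Prop := ∀ K : ℝ, 1 ≤ K → ∃ C ε0 : ℝ, 1 ≤ C ∧ 0 < ε0 ∧ ∀ (Γ : Subgroup SL(2, ℝ)) (ε L : ℝ) (X : Fd) (h : SL(2, ℝ) → ℝ) (g : SL(2, ℝ)) (J W : ℝ → ℝ), 0 < ε → ε ≤ ε0 → 0 ≤ L → HF K X → Tf Γ L h → SMN ε X g J W →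
  ∀ T : ℝ, 0 < T → |avf X.f h T (g * pj X g (J 0) (W 0)) - avf X.f h T g| ≤ C * (L + 1) / T

/-- **Row NRV** (reversal; medium, algebra; from VQE.NMB, VQE.REV). At `g kJ` with `D^r = kJ⁻¹ D kJ = [[d,-c],[-b,a]]`: `(b,c) ↦ (-c,-b)`, `(J,W) ↦ (-J,W)`, `sg` is unchanged, `hu^r = -hv`, `hv^r = -hu`, `FJ^r(g kJ, -J, W) = FJ(g, J, W)`, `FW^r(g kJ, -J, W) = -FW(g, J, W)` (every `g` is `g' kJ`). `nm` is invariant under conjugation by `kJ`. -/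
def NRV_stmt : Prop := ∀ (K : ℝ) (X : Fd), 1 ≤ K → HF K X → HF K (rX X) ∧ (∀ (g : SL(2, ℝ)) (J W : ℝ), pj (rX X) (g * kJ) (-J) W = kJ⁻¹ * pj X g J W * kJ) ∧
  ∀ (ε y : ℝ) (g : SL(2, ℝ)), UbN ε X y g = SbN ε (rX X) (-y) (g * kJ) * kJ⁻¹

/-- **Row NAL** (the holonomies are antilipschitz; short-medium; from VQE.NMB, NCH, NTP, NRV; compare VQE.ALP). `(S_b g)⁻¹ S_b(gE) = C⁻¹ E C'`, entries of `C - 1`, `C' - 1` are at most `C|b|`, of `C' - C` at most `C|b|nm E` (NTP, NCH). `U_y`: the reversed flow and conjugation by `kJ`. -/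
def NAL_stmt : Prop := ∀ K : ℝ, 1 ≤ K → ∃ C ε0 : ℝ, 1 ≤ C ∧ 0 < ε0 ∧ ∀ (ε : ℝ) (X : Fd) (b : ℝ), 0 < ε → ε ≤ ε0 → HF K X → |b| ≤ ε / C → Continuous (SbN ε X b) ∧ Continuous (UbN ε X b) ∧ ∀ g E : SL(2, ℝ), nm E ≤ 1 / 8 →
  nm E / 2 ≤ nm ((SbN ε X b g)⁻¹ * SbN ε X b (g * E)) ∧ nm ((SbN ε X b g)⁻¹ * SbN ε X b (g * E)) ≤ 2 * nm E ∧
  nm E / 2 ≤ nm ((UbN ε X b g)⁻¹ * UbN ε X b (g * E)) ∧ nm ((UbN ε X b g)⁻¹ * UbN ε X b (g * E)) ≤ 2 * nm E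

/-! ## D. Local coordinates and ergodicity -/

/-- the linear part of `g⁻¹ psN g z` -/
def LM (X : Fd) (g : SL(2, ℝ)) (us uu : ℝ) (z : Fin 3 → ℝ) : Matrix (Fin 2) (Fin 2) ℝ :=
  !![z 0 * (X.p g / 2), -(z 0 * X.q g) + z 1 * bj X g 1 uu + z 2 * bj X g 1 us; z 0 * X.q g + z 1 * cj X g 1 uu + z 2 * cj X g 1 us, -(z 0 * (X.p g / 2))]

/-- **Row NLC** (local coordinates; medium-long; from VQE.NMB, NCH, NSM, NTP, NRV; compare helper27/VQE/LCL.lean). `us = stn g r / r`, `uu = unn g r / r`. `M(z) = g⁻¹ psN g z = A B C`, `A = g⁻¹ f_t g`, `B = pj(g1)(y, unn g1 y)`, `g1 = f_t g`, `C = pj(g2)(x, stn g2 x)`, `g2 = U_y g1`. `A - A' = (t-t')Xm + O(r|t-t'|)` (NSM). `unn g1 y - unn g1 y' = uu (y-y') + O(r)|y-y'|` (NTP (4) with `j3 = r, j4 = 0`, and NTP (3):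
`|unn g1 r - unn g r| ≤ C r·nm ≤ C r·r`), `|unn g1 y - unn g1' y| ≤ C r|t-t'|`; the entries of `B - B'`: off the diagonal linear in `(J, W)` up to `C r m` (change of the base point, NCH), on the diagonal `C r m`, `m = dist z z'`. The same for `C - C'` (`nm(g2⁻¹ g2') ≤ C m`). Products: all factors are within `C r` of `1`. -/
def NLC_stmt : Prop := ∀ K : ℝ, 1 ≤ K → ∃ C ε0 : ℝ, 1 ≤ C ∧ 0 < ε0 ∧ ∀ (ε r : ℝ) (X : Fd), 0 < ε → ε ≤ ε0 → 0 < r → r ≤ ε / C → HF K X →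
  ContinuousOn (fun x : SL(2, ℝ) × (Fin 3 → ℝ) => psN ε X x.1 x.2) (univ ×ˢ cu r) ∧
  ∀ g : SL(2, ℝ), ∃ us uu : ℝ, 1 / C ≤ -us ∧ -us ≤ C ∧ 1 / C ≤ uu ∧ uu ≤ C ∧ ∀ z ∈ cu r, ∀ z' ∈ cu r, nm ((psN ε X g z)⁻¹ * psN ε X g z') ≤ C * dist z z' ∧
    ∀ i j, |(g⁻¹ * psN ε X g z).1 i j - (g⁻¹ * psN ε X g z').1 i j - LM X g us uu (z - z') i j| ≤ C * r * dist z z'

/-- **Row NLS** (local coordinates, surjective; medium; from VQE.NMB, NCH, NLC; compare helper59/VQE/LCS.lean). `Ω(M) = (M00 - M11, M10, M01)`, `Λ = Ω ∘ LM` is linear on `ℝ³` with the columns `(p, q, -q)`, `(0, cj 1 uu, bj 1 uu)`, `(0, cj 1 us, bj 1 us)`, `|det| = (uu - us)/2`-type (`bj`, `cj` have the determinant `1/(2p)` in `(J,W)`), so `|Λ⁻¹| ≤ C`. `z ↦ z - Λ⁻¹(Ω(M z) - Ω(D))` is a contraction of the cube of radius `r`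
(constant `C r ≤ 1/2`; `Ω(M 0) = 0` as `psN g 0 = g`: `stn g 0 = 0`). Two elements of `SL(2,ℝ)` near `1` with the same `Ω` are equal. -/
def NLS_stmt : Prop := ∀ K : ℝ, 1 ≤ K → ∃ C ε0 : ℝ, 1 ≤ C ∧ 0 < ε0 ∧ ∀ (ε r : ℝ) (X : Fd) (g D : SL(2, ℝ)), 0 < ε → ε ≤ ε0 → 0 < r → r ≤ ε / C → HF K X → nm D ≤ r / C → ∃ z ∈ cu r, psN ε X g z = g * D

/-- **Row NHO** (Hopf, local; medium; = VQE row HOF: copy helper78/VQE/HOF.lean; from VQE.NMB, NUL, NUI and NTP, NAV, NRV, NAL, NLC, NLS). `ε`, `r` fixed (the minima of the rows), `r0 = r/C`. `U_y`: NAV for `rX X` at `g kJ`, `h(· kJ⁻¹)` is again a test function, `avf (rf f) (h(· kJ⁻¹)) T (g kJ) = avf (fun t => f(-t)) h T g`. -/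
def NHO_stmt : Prop := ∀ K : ℝ, 1 ≤ K → ∃ r0 : ℝ, 0 < r0 ∧ ∀ (Γ : Subgroup SL(2, ℝ)) (L : ℝ) (X : Fd) (h u : SL(2, ℝ) → ℝ) (ns : ℕ → ℕ), 0 ≤ L → HF K X → FlG Γ X.p X.q X.f → Tf Γ L h → Measurable u → StrictMono ns →
  (∀ᵐ g ∂mG, Tendsto (fun k => avf X.f h (ns k) g) atTop (𝓝 (u g)) ∧ Tendsto (fun k => avf (fun t => X.f (-t)) h (ns k) g) atTop (𝓝 (u g))) →
  ∀ᵐ g ∂mG, ∀ᵐ g' ∂mG, nm (g⁻¹ * g') ≤ r0 → u g' = u g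

/-- **Row NHC** (short; = VQE row HOC with `r0` in the place of `1/4000`: copy helper36/VQE/HOC.lean; from VQE.NMB). -/
def NHC_stmt : Prop := ∀ (r0 : ℝ) (u : SL(2, ℝ) → ℝ), 0 < r0 → Measurable u → (∀ᵐ g ∂mG, ∀ᵐ g' ∂mG, nm (g⁻¹ * g') ≤ r0 → u g' = u g) → ∃ c : ℝ, ∀ᵐ g ∂mG, u g = c

/-- **Row NMR** (ergodicity; short; = VQE row MSR: copy helper68/VQE/MSR.lean; from VQE.VNE, VQE.RDM, NHO, NHC). -/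
def NMR_stmt : Prop := ∀ (K : ℝ) (Γ : Subgroup SL(2, ℝ)) (F : Set ℍ) (L : ℝ) (X : Fd) (h : SL(2, ℝ) → ℝ), 1 ≤ K → QU.SurfaceGroup Γ → QU.NiceDom Γ F → 0 ≤ L → HF K X → FlG Γ X.p X.q X.f → Tf Γ L h → MSC F X.f h

/-! ## E. Uniformity along curves -/

/-- **Row NCU** (antilipschitz coordinates along a curve; medium-long; from VQE.NMB, NCH, NSM, NSD, NTP; compare helper54/VQE/CUR.lean). `v < v'`, `g = γ v`, `D = g⁻¹ γ v'`, `δ = Jd D`, entries of `D - 1` are at most `Cδ` (`Jd`, `Wd`, `D00 - D11` determine `b`, `c`; `D00 + D11 > 0` by continuity in `v'`; `|v - v'|` small). `R = (S_x f_t g)⁻¹ S_x'(f_t' gD) = C⁻¹ E C'`, `E = (f_t g)⁻¹ f_t'(gD)`.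
Modulo `C(r + δ)m`, `r = ε/C`, `m = max(δ, |t-t'|, |x-x'|)`: `R - 1 = (D - 1) + (t'-t)Xm + (x'-x)(bj 1 us, cj 1 us)`, `us = stn g r/r ∈ [-C, -1/C]` (NTP (3), (4)). The functionals `Jd`, `Wd`, `x = R00 - R11` at `g` (they are `0, 0, p` on `Xm` and `1, us, 0` on the last matrix): `Wd(R) - us Jd(R) = Wd(D) - us δ + err ≥ δ/C1 - err`, so `δ ≤ C nm R + err`, then `|x'-x| ≤ |Jd(R)| + δ + err`,
`|t'-t| ≤ K(|x(R)| + C1δ) + err`. For small `r, δ` `m ≤ C nm R`, and `δ ≥ |v-v'|/C1`. -/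
def NCU_stmt : Prop := ∀ K C1 : ℝ, 1 ≤ K → 1 ≤ C1 → ∃ C ε0 : ℝ, 1 ≤ C ∧ 0 < ε0 ∧ ∀ (ε : ℝ) (X : Fd) (γ : ℝ → SL(2, ℝ)), 0 < ε → ε ≤ ε0 → HF K X → UCX C1 X γ → ∀ v v' t t' x x' : ℝ, v ∈ Icc (0 : ℝ) 1 → v' ∈ Icc (0 : ℝ) 1 → |v - v'| ≤ ε / C →
  |t| ≤ ε / C → |t'| ≤ ε / C → |x| ≤ ε / C → |x'| ≤ ε / C → max |v - v'| (max |t - t'| |x - x'|) ≤ C * nm ((SbN ε X x (X.f t (γ v)))⁻¹ * SbN ε X x' (X.f t' (γ v')))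

/-- **Row NUW** (uniform weak law; medium; = VQE row UWM: copy helper3/VQE/UWM.lean; from VQE.NMB, NUA, FDK and NTP, NAV, NCU). -/
def NUW_stmt : Prop := ∀ (K : ℝ) (Γ : Subgroup SL(2, ℝ)) (F : Set ℍ) (L : ℝ) (X : Fd) (h : SL(2, ℝ) → ℝ), 1 ≤ K → QU.SurfaceGroup Γ → QU.NiceDom Γ F → 0 ≤ L → HF K X → FlG Γ X.p X.q X.f → Tf Γ L h → MSC F X.f h →
  ∀ e v0 C1 : ℝ, 0 < e → 0 < v0 → 1 ≤ C1 → ∃ T0 : ℝ, 0 < T0 ∧ ∀ T : ℝ, T0 ≤ T → ∀ γ : ℝ → SL(2, ℝ), UCX C1 X γ →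
    volume {v ∈ Icc (0 : ℝ) 1 | e ≤ |avf X.f h T (γ v) - mnG F h|} ≤ ENNReal.ofReal v0

/-- **Row NCL** (close fields; short-medium; = VQE row CLO: copy helper57/VQE/CLO.lean; from VQE.NMB). -/
def NCL_stmt : Prop := ∀ (K L T e : ℝ), 1 ≤ K → 0 ≤ L → 0 < T → 0 < e → ∃ ε : ℝ, 0 < ε ∧ ∀ (Γ : Subgroup SL(2, ℝ)) (X : Fd) (p' q' : SL(2, ℝ) → ℝ) (f' : ℝ → SL(2, ℝ) → SL(2, ℝ)) (h : SL(2, ℝ) → ℝ), HF K X → Flw p' q' f' →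
  (∀ g, |p' g - X.p g| ≤ ε) → (∀ g, |q' g - X.q g| ≤ ε) → Tf Γ L h → ∀ g, |avf f' h T g - avf X.f h T g| ≤ e

end

end Pool.Agent.VNE
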