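import Pool.Agent.helper62.VN.SpecE
import Pool.Agent.helper62.VQ.SpecF
import Pool.Agent.helper11.VN.Spec3i
import Pool.Agent.helper74.VN.SpecC
import Pool.Agent.helper80.VQ.SpecFL

/-!
# MP_07c750 (QUE, weight 10), project VN, block 5, second part: from `OKN` to the abstract hyperbolic flows of SpecE, and the uniform weak law `IUWN`

RULES as in SpecE (rows `vne:XXX`, file `Pool/Agent/<seat>/VNE/XXX.lean`, `import Pool.Agent.helper62.VN.SpecG`, namespace `Pool.Agent.VNE`). `CB`, `ze`, `et`, `one2`, `PZE`, `PZC`, `PCA`, `PSD` are in helper62/VQ/SpecF (all proved, see helper62/VQE/All.lean), `VQ.VDG` in helper80/VQ/SpecFL (proved: helper73/VQ/VDG.lean).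
-/

open scoped MatrixGroups ContDiff Topology UpperHalfPlane
open UpperHalfPlane MeasureTheory Filter Set

namespace Pool.Agent.VNE

open Pool.Agent.RS Pool.Agent.VQE
open Pool.Agent.VQ (Dyn rho kap n1 n2 hess Ug TF)
open Pool.Agent.VN (PotN OKN Kg)

noncomputable section

/-- the data of the flow at the energy `0` -/
def XD (D : Dyn) : Fd := ⟨rho D.U 0, fun g => -(kap D.U 0 g) / 2, fun g => n1 D.U g / (2 * rho D.U 0 g ^ 2),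
  fun g => hess D.U g 0 0 / (2 * rho D.U 0 g) + n2 D.U g ^ 2 / (4 * rho D.U 0 g ^ 3) - n1 D.U g ^ 2 / (2 * rho D.U 0 g ^ 3),
  fun g => -(rho D.U 0 g ^ 2 * Kg D.U 0 g), D.fl 0⟩

/-- first order Taylor expansion at `0` with a remainder of the second order -/
structure TL (A r : ℝ) (φ : ℝ → ℝ → ℝ) (φ0 α β : ℝ) : Prop where
  v0 : φ 0 0 = φ0
  bd : |φ0| ≤ A ∧ |α| ≤ A ∧ |β| ≤ A
  tl : ∀ b c b' c' : ℝ, |b| ≤ r → |c| ≤ r → |b'| ≤ r → |c'| ≤ r →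
    |φ b c - φ b' c' - α * (b - b') - β * (c - c')| ≤ A * (|b| + |c| + |b'| + |c'|) * (|b - b'| + |c - c'|)

/-- what is needed for `f1`, `f2` -/
structure PH (K : ℝ) (X : Fd) (pa qa qd : SL(2, ℝ) → ℝ) : Prop where
  pb : ∀ g, 1 / K ≤ X.p g ∧ X.p g ≤ K
  qb : ∀ g, |X.q g| ≤ K ∧ |X.m g| ≤ K ∧ |X.m1 g| ≤ K
  kb : ∀ g, 1 / K ≤ X.κ g ∧ X.κ g ≤ K
  lip : ∀ g D, |X.p (g * D) - X.p g| ≤ K * nm D ∧ |X.q (g * D) - X.q g| ≤ K * nm D ∧ |X.m (g * D) - X.m g| ≤ K * nm D ∧ |X.m1 (g * D) - X.m1 g| ≤ K * nm D ∧ |X.κ (g * D) - X.κ g| ≤ K * nm D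
  sd : ∀ g E D, nm D ≤ 1 / K → |X.p (g * E * D) - X.p (g * E) - X.p (g * D) + X.p g| ≤ K * nm D * nm E ∧ |X.q (g * E * D) - X.q (g * E) - X.q (g * D) + X.q g| ≤ K * nm D * nm E
  tp : ∀ g, TL K (1 / K) (fun b c => X.p (g * dg b c)) (X.p g) (pa g) (pa g)
  tq : ∀ g, TL K (1 / K) (fun b c => X.q (g * dg b c)) (X.q g) (qa g + qd g) (qa g - qd g)
  id1 : ∀ g, X.m g * X.p g = 2 * qd g
  id2 : ∀ g, -X.p g - 2 * qa g + 2 * X.q g * (pa g + 2 * X.q g) / X.p g - X.m1 g + X.κ g * X.p g = 0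

/-! ## The potentials -/

/-- **Row GSQ** (PURE, calculus of `CB`; short-medium; compare helper29/VQE/PCI.lean). `u ↦ √u`, `u ↦ 1/√u` on `[a, ∞)`: derivatives of order one and two are bounded by constants depending on `a`; chain rule; `‖(1/(2√G(x))) G'(x) - (1/(2√G(y))) G'(y)‖` with `|G x - G y| ≤ A‖x-y‖` (mean value inequality). -/
def GSQ_stmt : Prop := ∀ A a : ℝ, 0 ≤ A → 0 < a → ∃ A' : ℝ, 1 ≤ A' ∧ ∀ (V : Type) [NormedAddCommGroup V] [NormedSpace ℝ V] (s : Set V) (G : V → ℝ), Convex ℝ s → CB s A G → (∀ x ∈ s, a ≤ G x) →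
  CB s A' (fun x => Real.sqrt (G x)) ∧ CB s A' (fun x => (Real.sqrt (G x))⁻¹)

/-- **Row GN1** (short; from the proof of PZE: helper62/VQE/PZE.lean, the same with the direction `1` in the place of `i`). -/
def GN1_stmt : Prop := ∀ (U : ℍ → ℝ) (g D : SL(2, ℝ)), QU.CD ∞ U → n1 U (g * D) = fderiv ℝ (Ug U g) (ze (mt D)) (et (mt D))

/-- **Row GQC** (the potential data are `CB`; medium; from PZE, PZC, PCA, GSQ, GN1; compare helper57/VQE/PFB.lean). `PotN.up` (`n ≤ 3`) gives `CB (closedBall 0 1) C (Ug U g)` and `CB (closedBall 0 1) C (fderiv ℝ (Ug U g))`; `U ≥ 8k`. `R M = √(Ug U g (ze M))`, `N1 M = fderiv (Ug U g) (ze M) (et M)`, `N2 M = fderiv (Ug U g) (ze M) (et M · i)`. -/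
def GQC_stmt : Prop := ∀ k : ℝ, 0 < k → ∃ K : ℝ, 1 ≤ K ∧ ∀ (Γ : Subgroup SL(2, ℝ)) (B : ℕ → ℝ) (U : ℍ → ℝ), PotN Γ k B U → ∀ g : SL(2, ℝ),
  ∃ R N1 N2 : (Fin 2 → Fin 2 → ℝ) → ℝ, CB (Metric.closedBall one2 (1 / 10)) K R ∧ CB (Metric.closedBall one2 (1 / 10)) K N1 ∧ CB (Metric.closedBall one2 (1 / 10)) K N2 ∧
    ∀ D : SL(2, ℝ), nm D ≤ 1 / 10 → 1 / K ≤ rho U 0 (g * D) ∧ rho U 0 (g * D) = R (mt D) ∧ n1 U (g * D) = N1 (mt D) ∧ n2 U (g * D) = N2 (mt D)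

/-- **Row GDV** (directional derivatives; short-medium; from VQ.VDG). For `ω = !![x/2, b; c, -(x/2)]` the curve `γ s = g * nM (s b) * lM (s c) * aM (s x)` (or any smooth curve in `SL(2,ℝ)` through `g`, `D(s) = g⁻¹ γ s`, `D(0) = 1`, `D'(0) = ω`) satisfies the hypothesis of VDG at `s = 0`; `R (mt (D s))` has the derivative `fderiv ℝ R one2 ω` (chain rule). -/
def GDV_stmt : Prop := ∀ (U : ℍ → ℝ) (g : SL(2, ℝ)) (R N1 N2 : (Fin 2 → Fin 2 → ℝ) → ℝ), QU.CD ∞ U → 0 < U (g • I) → DifferentiableAt ℝ R one2 → DifferentiableAt ℝ N1 one2 → DifferentiableAt ℝ N2 one2 →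
  (∀ D : SL(2, ℝ), nm D ≤ 1 / 10 → rho U 0 (g * D) = R (mt D) ∧ n1 U (g * D) = N1 (mt D) ∧ n2 U (g * D) = N2 (mt D)) → ∀ x b c : ℝ,
    fderiv ℝ R one2 !![x / 2, b; c, -(x / 2)] = (n1 U g * x - n2 U g * (b + c)) / (2 * rho U 0 g) ∧
    fderiv ℝ N1 one2 !![x / 2, b; c, -(x / 2)] = hess U g 0 0 * x - hess U g 0 1 * (b + c) + (b - c) * n2 U g ∧
    fderiv ℝ N2 one2 !![x / 2, b; c, -(x / 2)] = hess U g 1 0 * x - hess U g 1 1 * (b + c) - (b - c) * n1 U g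

/-- **Row GLP** (Lipschitz bounds; medium; from VQE.NMB, GQC, GDV). `nm E ≤ 1/100`: `R`, `N1`, `N2` of GQC are Lipschitz (mean value inequality on the convex ball, `dist (mt E) one2 ≤ nm E`). `hess U g 0 0 = fderiv ℝ N1 one2 !![1/2, 0; 0, -1/2]`, `hess U g 1 1 = -fderiv ℝ N2 one2 !![0, 1/2; 1/2, 0]` (GDV), and for `gE`: `N1^(gE)(M) = N1^g(E M)` for `M = mt D` in
`SL(2,ℝ)` near `1`, so the derivative at `1` in the direction `ω` is `fderiv ℝ N1^g (mt E) (E ω)` (compute along a curve in `SL(2,ℝ)`): the difference is at most `K nm E · C`. `nm E ≥ 1/100`: bounded. -/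
def GLP_stmt : Prop := ∀ k : ℝ, 0 < k → ∃ K : ℝ, 1 ≤ K ∧ ∀ (Γ : Subgroup SL(2, ℝ)) (B : ℕ → ℝ) (U : ℍ → ℝ), PotN Γ k B U → ∀ g E : SL(2, ℝ),
  1 / K ≤ rho U 0 g ∧ rho U 0 g ≤ K ∧ |n1 U g| ≤ K ∧ |n2 U g| ≤ K ∧ |hess U g 0 0| ≤ K ∧ |hess U g 1 1| ≤ K ∧
  |rho U 0 (g * E) - rho U 0 g| ≤ K * nm E ∧ |n1 U (g * E) - n1 U g| ≤ K * nm E ∧ |n2 U (g * E) - n2 U g| ≤ K * nm E ∧
  |hess U (g * E) 0 0 - hess U g 0 0| ≤ K * nm E ∧ |hess U (g * E) 1 1 - hess U g 1 1| ≤ K * nm E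

/-- **Row GTL** (Taylor expansion and second differences of `p`, `q`; medium; from VQE.NMB, GQC, GDV, PCA, PSD, GSQ). `q = -n2/(4ρ)`: `Hq = -(1/4) N2 R⁻¹` is `CB` (PCA; `R⁻¹` as in GSQ or directly). For a `CB` function `G`: `|G(M) - G(M') - G'(1)(M - M')| ≤ K max(‖M-1‖, ‖M'-1‖)‖M-M'‖`, `M = mt (dg b c)`, `M' = mt (dg b' c')`, the diagonal part of `M - M'` is
`O((|b|+|c'|+..)(|b-b'|+|c-c'|))`; the derivative in the direction `[[0, b], [c, 0]]` from GDV: for `ρ`: `-n2(b+c)/(2ρ)`, for `q`: `-(1/4)(N2'/ρ - n2 ρ'/ρ²) = h11(b+c)/(4ρ) + n1(b-c)/(4ρ) - n2²(b+c)/(8ρ³)`. Second differences: PSD for small `E`, Lipschitz bounds for large `E`. -/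
def GTL_stmt : Prop := ∀ k : ℝ, 0 < k → ∃ K : ℝ, 1 ≤ K ∧ ∀ (Γ : Subgroup SL(2, ℝ)) (B : ℕ → ℝ) (U : ℍ → ℝ), PotN Γ k B U → ∀ g : SL(2, ℝ),
  TL K (1 / K) (fun b c => rho U 0 (g * dg b c)) (rho U 0 g) (-(n2 U g / (2 * rho U 0 g))) (-(n2 U g / (2 * rho U 0 g))) ∧
  TL K (1 / K) (fun b c => -(kap U 0 (g * dg b c)) / 2) (-(kap U 0 g) / 2) (hess U g 1 1 / (4 * rho U 0 g) - n2 U g ^ 2 / (8 * rho U 0 g ^ 3) + n1 U g / (4 * rho U 0 g))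
    (hess U g 1 1 / (4 * rho U 0 g) - n2 U g ^ 2 / (8 * rho U 0 g ^ 3) - n1 U g / (4 * rho U 0 g)) ∧
  ∀ E D : SL(2, ℝ), nm D ≤ 1 / K → |rho U 0 (g * E * D) - rho U 0 (g * E) - rho U 0 (g * D) + rho U 0 g| ≤ K * nm D * nm E ∧
    |-(kap U 0 (g * E * D)) / 2 - -(kap U 0 (g * E)) / 2 - -(kap U 0 (g * D)) / 2 + -(kap U 0 g) / 2| ≤ K * nm D * nm E

/-- **Row GPH** (`XD D` is `PH`; short-medium; from GLP, GTL). `pa = -n2/(2ρ)`, `qa = h11/(4ρ) - n2²/(8ρ³)`, `qd = n1/(4ρ)` (`h11 = hess U g 1 1`). `κ = 1 + (h00 + h11)/(2ρ²) - (n1² + n2²)/(2ρ⁴)`, and `κ = -ρ²Kg ≥ ρ² k ≥ 8k²` (`PotN.neg`). Lipschitz bounds of products and quotients. `id1`: `m p = n1/(2ρ)`. `id2`: `pa + 2q = -n2/ρ`, `2q(pa+2q)/p = n2²/(2ρ³)`; all terms cancel. -/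
def GPH_stmt : Prop := ∀ k : ℝ, 0 < k → ∃ K : ℝ, 1 ≤ K ∧ ∀ (Γ : Subgroup SL(2, ℝ)) (B : ℕ → ℝ) (D : Dyn), PotN Γ k B D.U → ∃ pa qa qd : SL(2, ℝ) → ℝ, PH K (XD D) pa qa qd

/-! ## The fields `FJ`, `FW` -/

/-- **Row GO2** (PURE, calculus of `TL`; medium, algebra). Product: `φψ - φ'ψ' = (φ-φ')ψ + φ'(ψ-ψ')`, `ψ = ψ0 + O(|b|+|c|)`. Inverse: `1/φ - 1/φ' = -(φ-φ')/(φφ')`, `|φ| ≥ 1/(2A)` for small `r'`. Square root: `√(1+bc) - √(1+b'c') = (bc - b'c')/(√ + √')`. -/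
def GO2_stmt : Prop := ∀ A r : ℝ, 1 ≤ A → 0 < r → ∃ A' r' : ℝ, 1 ≤ A' ∧ 0 < r' ∧ r' ≤ r ∧
  (∀ (φ ψ : ℝ → ℝ → ℝ) (φ0 α β ψ0 α' β' : ℝ), TL A r φ φ0 α β → TL A r ψ ψ0 α' β' →
    TL A' r' (fun b c => φ b c + ψ b c) (φ0 + ψ0) (α + α') (β + β') ∧ TL A' r' (fun b c => φ b c - ψ b c) (φ0 - ψ0) (α - α') (β - β') ∧
    TL A' r' (fun b c => φ b c * ψ b c) (φ0 * ψ0) (φ0 * α' + ψ0 * α) (φ0 * β' + ψ0 * β) ∧
    (1 / A ≤ |φ0| → TL A' r' (fun b c => (φ b c)⁻¹) φ0⁻¹ (-(α / φ0 ^ 2)) (-(β / φ0 ^ 2)))) ∧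
  TL A' r' (fun b c => √(1 + b * c)) 1 0 0 ∧ TL A' r' (fun b _ => b) 0 1 0 ∧ TL A' r' (fun _ c => c) 0 0 1 ∧ ∀ a : ℝ, |a| ≤ A → TL A' r' (fun _ _ => a) a 0 0

/-- **Row GF1** (`f1`; medium, algebra; from GO2). As functions of `(b, c)`: `hv - hu = ((P+p)/2 - 1)(c - b)`, `hu + hv = ((P+p)/2 - 1)(b + c) + 2a(Q - q)`, `P = p(g dg b c) σ`, `Q = q(g dg b c) σ`, `σ = sg`: `TL` with `σ0 = 1`, linear part `-((pa + 2q)/p)(b + c)`. `FJ = -p²m(b+c) - p(c-b)(P+p)/2`: linear part `-p²m(b+c) + p²(b-c) = p² W`.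
`FW = -(b+c)(P+p)/2 - 2a(Q-q) - m1(b+c) - m(c-b)(P+p)/2`: linear part `(-p - 2qa + 2q(pa+2q)/p - m1)(b+c) + (-2qd + m p)(b-c) = -κp(b+c) = κJ` by `id1`, `id2`. `b, c` are linear in `(J, W)` with coefficients `≤ 2K²`. -/
def GF1_stmt : Prop := ∀ K : ℝ, 1 ≤ K → ∃ K' : ℝ, K ≤ K' ∧ ∀ (X : Fd) (pa qa qd : SL(2, ℝ) → ℝ), PH K X pa qa qd → ∀ (g : SL(2, ℝ)) (J W J' W' : ℝ), |J| + |W| ≤ 1 / K' → |J'| + |W'| ≤ 1 / K' →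
  |FJ X g J W - FJ X g J' W' - X.p g ^ 2 * (W - W')| ≤ K' * (|J| + |W| + |J'| + |W'|) * (|J - J'| + |W - W'|) ∧
  |FW X g J W - FW X g J' W' - X.κ g * (J - J')| ≤ K' * (|J| + |W| + |J'| + |W'|) * (|J - J'| + |W - W'|)

/-- **Row GLH** (`hu`, `hv`: Lipschitz, and change of the base point; medium, algebra; = VQE rows UVX, UVG with constants: copy helper61/VQE/UVX.lean, helper31/VQE/UVG.lean; from VQE.NMB). -/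
def GLH_stmt : Prop := ∀ K : ℝ, 1 ≤ K → ∃ C : ℝ, 1 ≤ C ∧ ∀ (X : Fd) (pa qa qd : SL(2, ℝ) → ℝ), PH K X pa qa qd → ∀ (g E : SL(2, ℝ)) (b c b' c' : ℝ), |b| ≤ 1 / C → |c| ≤ 1 / C → |b'| ≤ 1 / C → |c'| ≤ 1 / C →
  |hu X.p X.q g b c - hu X.p X.q g b' c'| ≤ C * (|b - b'| + |c - c'|) ∧ |hv X.p X.q g b c - hv X.p X.q g b' c'| ≤ C * (|b - b'| + |c - c'|) ∧ hu X.p X.q g 0 0 = 0 ∧ hv X.p X.q g 0 0 = 0 ∧
  |hu X.p X.q (g * E) b c - hu X.p X.q g b c| ≤ C * nm E * (|b| + |c|) ∧ |hv X.p X.q (g * E) b c - hv X.p X.q g b c| ≤ C * nm E * (|b| + |c|)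

/-- **Row GF2** (`f2`; short-medium, algebra; from GLH). `bj`, `cj` at `gE` and `g` differ by `C nm E |J|` (also `≤ C|J|`), `uj`, `vj` by `C nm E (|J| + |W|)` (GLH), the coefficients `p² m`, `p`, `m1`, `m` by `C nm E` (and are bounded), `|bj|, |cj|, |uj|, |vj| ≤ C(|J| + |W|)`. For `nm E ≥ 1` bound both terms. -/
def GF2_stmt : Prop := ∀ K : ℝ, 1 ≤ K → ∃ K' : ℝ, K ≤ K' ∧ ∀ (X : Fd) (pa qa qd : SL(2, ℝ) → ℝ), PH K X pa qa qd → ∀ (g E : SL(2, ℝ)) (J W : ℝ), |J| + |W| ≤ 1 / K' →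
  |FJ X (g * E) J W - FJ X g J W| ≤ K' * nm E * (|J| + |W|) ∧ |FW X (g * E) J W - FW X g J W| ≤ K' * nm E * (|J| + |W|)

/-! ## The flow -/

/-- **Row GFL** (short-medium; from VN.FLBN, VN.NHM). `X = XX = [[ρ/2, κ/2], [-κ/2, -ρ/2]]`, `q = -κ/2` (`OKN.dfl`), `OKN.cfl`, `OKN.fl0`. -/
def GFL_stmt : Prop := ∀ (Γ : Subgroup SL(2, ℝ)) (k : ℝ) (B : ℕ → ℝ) (D : Dyn), QU.SurfaceGroup Γ → OKN Γ k B D → FlG Γ (XD D).p (XD D).q (XD D).f ∧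
  ∀ E : ℝ, |E| ≤ k → Flw (rho D.U E) (fun g => -(kap D.U E g) / 2) (D.fl E)

/-- **Row GTD** (derivatives along the flow; short-medium; from VQ.VDG). `γ s = D.fl 0 s g`, `x = ρ`, `b = κ/2`, `c = -κ/2`, `κ = kap = n2/(2ρ)` (`OKN.dfl`). `ρ' = n1/2 = p² m`; `n1' = h00 ρ + κ n2`, `m' = n1'/(2ρ²) - n1ρ'/ρ³ = h00/(2ρ) + n2²/(4ρ³) - n1²/(2ρ³)`. -/
def GTD_stmt : Prop := ∀ (Γ : Subgroup SL(2, ℝ)) (k : ℝ) (B : ℕ → ℝ) (D : Dyn), OKN Γ k B D → ∀ (t : ℝ) (g : SL(2, ℝ)), HasDerivAt (fun s => (XD D).p ((XD D).f s g)) ((XD D).p ((XD D).f t g) ^ 2 * (XD D).m ((XD D).f t g)) t ∧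
  HasDerivAt (fun s => (XD D).m ((XD D).f s g)) ((XD D).m1 ((XD D).f t g)) t

/-- **Row GHF** (negatively curved flows are hyperbolic; short; from GPH, GF1, GF2, GFL, GTD). -/
def GHF_stmt : Prop := ∀ k : ℝ, 0 < k → ∃ K : ℝ, 1 ≤ K ∧ ∀ (Γ : Subgroup SL(2, ℝ)) (B : ℕ → ℝ) (D : Dyn), QU.SurfaceGroup Γ → OKN Γ k B D → HF K (XD D)

/-! ## The uniform weak law -/

/-- **Row GCP** (close potentials; short-medium; from GLP). `Ug U g 0 = U (g • I)`, `n1`, `n2` are the values of `fderiv (Ug U g) 0`: `n = 0, 1` of the hypothesis (the functions are differentiable at `0`). `ρ'² - ρ² = U' - U + 2E`, `ρ, ρ' ≥ c(k)` (`8k ≤ U`, `|E| ≤ k`). -/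
def GCP_stmt : Prop := ∀ k : ℝ, 0 < k → ∃ C : ℝ, 1 ≤ C ∧ ∀ (Γ : Subgroup SL(2, ℝ)) (B : ℕ → ℝ) (U U' : ℍ → ℝ) (s E : ℝ), PotN Γ k B U → PotN Γ k B U' → 0 ≤ s → s ≤ k → |E| ≤ s →
  (∀ (g : SL(2, ℝ)) (n : ℕ), n ≤ 2 → ‖iteratedFDeriv ℝ n (fun w => Ug U g w - Ug U' g w) 0‖ ≤ s) → ∀ g : SL(2, ℝ),
    1 / C ≤ rho U 0 g ∧ rho U 0 g ≤ C ∧ 1 / C ≤ rho U' E g ∧ rho U' E g ≤ C ∧ |n1 U g| ≤ C ∧ |n1 U' g| ≤ C ∧ |kap U 0 g| ≤ C ∧ |kap U' E g| ≤ C ∧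
    |rho U' E g - rho U 0 g| ≤ C * s ∧ |kap U' E g - kap U 0 g| ≤ C * s ∧ |n1 U' g - n1 U g| ≤ C * s

/-- **Row GUC** (curves; short-medium, algebra; from GCP). With `J' = Jc U' E`, `W' = Wc U' E`, `J = Jd (XD D)`, `W = Wd (XD D)` (`2q/p = -kap/ρ`): `J = J' ρ/ρ'`, `|W - W'| ≤ C s (|b+c| + |x|) ≤ C s C1 J'`: for `s ≤ s0` `J ∈ [1/2, 2] J'`, `|W - W'| ≤ J'/(2C1)`. -/
def GUC_stmt : Prop := ∀ k C1 : ℝ, 0 < k → 1 ≤ C1 → ∃ s0 : ℝ, 0 < s0 ∧ s0 ≤ k ∧ ∀ (Γ : Subgroup SL(2, ℝ)) (B : ℕ → ℝ) (D D' : Dyn) (E : ℝ) (γ : ℝ → SL(2, ℝ)), OKN Γ k B D → OKN Γ k B D' → |E| ≤ s0 →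
  (∀ (g : SL(2, ℝ)) (n : ℕ), n ≤ 2 → ‖iteratedFDeriv ℝ n (fun w => Ug D.U g w - Ug D'.U g w) 0‖ ≤ s0) → VN.UCN C1 D'.U E γ → UCX (10 * C1) (XD D) γ

/-- **Row IUN** (the uniform weak law; short-medium; from GHF, GFL, NMR, NUW, NCL, GUC, GCP, VQE.HLI; compare helper62/VQE/IUA.lean, whose lemma `IUA_tf` gives `Tf Γ L h'` and the mean). `T0` from NUW for `XD D`, `10 C1`, `e/2`, rounded up to a natural number; `ε` from NCL for this time and `e/2`; `s = E0 = min (s0) (ε/(2C)) k`. -/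
def IUN_stmt : Prop := VN.IUWN_stmt

end

end Pool.Agent.VNE
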